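import Pool.Agent.H170.WH.Hop

/-!
The cometric of the second factor of `S³ × S³`, and the cometric of `S²`.
-/

open Bundle Manifold ContDiff ContinuousLinearMap Filter VectorField Metric Module
open scoped Topology RealInnerProductSpace

set_option autoImplicit false
set_option synthInstance.maxHeartbeats 400000
set_option maxHeartbeats 4000000
set_option linter.unusedSectionVars false
set_option linter.unusedSimpArgs false

noncomputable section

namespace Pool.Agent.H170.WH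

open Pool.Agent.H821R2 Pool.Agent.H893R5.HO
open HopfPP HopfG HopfG.Eqv HopfG.HS
open Pool.Agent.H839R2.RS
open Pool.Agent.W482.S33 (S3 j3 smooth_j3 P3 P3_apply orth3 X3 X3_B X3_j X3_P XX3 XX3_B XX3_j XX3_P
  XX3_d_fst WW WW_apply qJ_zero Ad_zero cx_zero_left)

/-! ### block independence, second factor -/

theorem cx_zero_right (n : V ℝ) : cx n (0 : V ℝ) = 0 := by
  funext i; fin_cases i <;> simp [cx]

theorem mv_zero (W : Fin 3 → V ℝ) : mv W (0 : V ℝ) = 0 := by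
  funext i; fin_cases i <;> simp [mv, dt]

/-- the cometric of the second factor, in momenta -/
def kk2 (D : HopfG.HS.Dat ℝ) (y : Q4 ℝ) (a : V ℝ) : V ℝ :=
  a + mv D.W a + Ad (qc y) (mv D.Wp (Ad y a))

/-- the second component of the cometric of `(0, α)` -/
theorem K0_snd (D : HopfG.HS.Dat ℝ) {x : Q4 ℝ} (hx : qd x x = 1) (y : Q4 ℝ) (a : V ℝ) :
    (K0 (D.at x) (qm (qc x) y) (0, a)).2 = kk2 D y a := by
  have e1 : qm x (qm (qc x) y) = y := by
    rw [← qm_assoc, qm_qc, hx, one_qm]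
  have e2 : qm (qc (qm (qc x) y)) (qc x) = qc y := by
    rw [qc_qm, qc_qc, qm_assoc, qm_qc, hx, qm_one]
  have e3 : (D.at x).W = D.W := rfl
  simp only [K0, pW, HopfG.HS.h0, q0, HopfG.HS.sT, Prod.snd_add, Prod.smul_snd, Ad_zero,
    cx_zero_right, smul_zero, add_zero, sub_zero, zero_add, mv_at_Wp, Ad_Ad, e1, e2, e3, kk2]

theorem cv_zero : cv (0 : U3) = (0 : V ℝ) := by
  funext i; fin_cases i <;> rfl

section

variable (D : HopfG.HS.Dat ℝ) (hW : G2.SymM D.W) (hWp : G2.SymM D.Wp)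

theorem block2 {x : U4} (hx : ‖x‖ = 1) (y : U4) (a : U4) :
    (WW D hW hWp (x, y) (0, a)).2 = qR (vc (kk2 D (c4 y) (cv (qJ y a)))) y := by
  rw [WW_apply, R33_apply, J33_apply, Kf_apply]
  change qR (vc (K0 (D.at (c4 x)) (gz (x, y)) (cv (qJ x 0), cv (qJ y a))).2) y = _
  rw [qJ_zero, cv_zero]
  have := K0_snd D (qd_c4 hx) (c4 y) (cv (qJ y a))
  rw [← this]
  rfl

/-- a point of `S³` -/
def x0 : S3 := ⟨EuclideanSpace.single 0 1, by simp⟩

/-- the cometric of the second factor -/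
def V3 (y : U4) : U4 →L[ℝ] U4 :=
  (ContinuousLinearMap.snd ℝ U4 U4).comp ((WW D hW hWp ((x0 : U4), y)).comp
    (ContinuousLinearMap.inr ℝ U4 U4))

theorem V3_apply (y a : U4) : V3 D hW hWp y a = (WW D hW hWp ((x0 : U4), y) (0, a)).2 := rfl

theorem V3_eq {x : U4} (hx : ‖x‖ = 1) (y a : U4) :
    (WW D hW hWp (x, y) (0, a)).2 = V3 D hW hWp y a := by
  rw [V3_apply, block2 D hW hWp hx, block2 D hW hWp (norm_eq_of_mem_sphere x0)]

theorem V3_eq' (y a : U4) : V3 D hW hWp y a = qR (vc (kk2 D (c4 y) (cv (qJ y a)))) y := by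
  rw [V3_apply, block2 D hW hWp (norm_eq_of_mem_sphere x0)]

theorem com3' (hC : XX3.Com (WW D hW hWp)) : X3.Com (V3 D hW hWp) where
  smooth := contDiff_const.clm_comp
    ((hC.smooth.comp (contDiff_const.prodMk contDiff_id)).clm_comp contDiff_const)
  symm z a b := by
    have h := hC.symm ((x0 : U4), z) (0, a) (0, b)
    rw [XX3_B, XX3_B] at h
    simp only [inner_zero_left, inner_zero_right, zero_add] at h
    rw [X3_B, X3_B, V3_apply, V3_apply]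
    exact h
  tan p a := by
    have h := congrArg Prod.snd (hC.tan (x0, p) (0, a))
    rw [XX3_P] at h
    rw [X3_P]
    exact h
  pos p a ha hne := by
    have h := hC.pos (x0, p) (0, a) (by
      rw [XX3_P]
      rw [X3_P] at ha
      refine Prod.ext ?_ ha
      simp) (fun h => hne (congrArg Prod.snd h))
    rw [XX3_B] at h
    simp only [inner_zero_left, zero_add] at h
    exact h

end

/-! ### the cometric of `S²` -/

/-- the cross product as a bilinear map -/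
def CR : U3 →L[ℝ] U3 →L[ℝ] U3 :=
  bilin (LinearMap.mk₂ ℝ cr3
    (fun z z' p => by
      refine ext_U3 ?_ ?_ ?_ <;> simp <;> ring)
    (fun c z p => by
      refine ext_U3 ?_ ?_ ?_ <;> simp <;> ring)
    (fun z p p' => by
      refine ext_U3 ?_ ?_ ?_ <;> simp <;> ring)
    (fun c z p => by
      refine ext_U3 ?_ ?_ ?_ <;> simp <;> ring))

theorem CR_apply (a b : U3) : CR a b = cr3 a b := rfl

/-- the matrix `2 + W'` -/
def MW (W : Fin 3 → V ℝ) : U3 →L[ℝ] U3 := LinearMap.toContinuousLinearMap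
  { toFun := fun a => vc ((2 : ℝ) • cv a + mv W (cv a))
    map_add' := fun a b => by
      refine ext_U3 ?_ ?_ ?_ <;> simp [vc, cv, mv, dt] <;> ring
    map_smul' := fun c a => by
      refine ext_U3 ?_ ?_ ?_ <;> simp [vc, cv, mv, dt] <;> ring }

theorem MW_apply (W : Fin 3 → V ℝ) (a : U3) : MW W a = vc ((2 : ℝ) • cv a + mv W (cv a)) := rfl

/-- the cometric of `S²`: `η ↦ 4 ((2 + W') (n × η)) × n` -/
def W2 (W : Fin 3 → V ℝ) (n : U3) : U3 →L[ℝ] U3 := (-4 : ℝ) • ((CR n).comp ((MW W).comp (CR n)))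

theorem W2_apply (W : Fin 3 → V ℝ) (n a : U3) :
    W2 W n a = (-4 : ℝ) • cr3 n (vc ((2 : ℝ) • cv (cr3 n a) + mv W (cv (cr3 n a)))) := rfl

theorem contDiff_W2 (W : Fin 3 → V ℝ) : ContDiff ℝ ∞ (W2 W) :=
  (CR.contDiff.clm_comp (contDiff_const.clm_comp CR.contDiff)).const_smul (-4 : ℝ)

/-- the anisotropy `W'` of the frozen cometric -/
def Wm (μ : ℝ) : Fin 3 → V ℝ := ![![1, 0, 0], ![0, 1, μ], ![0, μ, 1]]

theorem com2' {μ : ℝ} (hμ : |μ| ≤ 1 / 100) : X2.Com (W2 (Wm μ)) where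
  smooth := contDiff_W2 _
  symm z a b := by
    rw [X2_B, X2_B, W2_apply, W2_apply, inner_U3, inner_U3]
    simp [vc, cv, mv, dt, Wm]
    ring
  tan p a := by
    rw [X2_P, W2_apply]
    have h : ⟪(p : U3), (-4 : ℝ) • cr3 (p : U3) (vc ((2 : ℝ) • cv (cr3 (p : U3) a) +
        mv (Wm μ) (cv (cr3 (p : U3) a))))⟫ = 0 := by
      rw [inner_U3]
      simp [vc, cv, mv, dt, Wm]
      ring
    change _ - ⟪(p : U3), (-4 : ℝ) • cr3 (p : U3) (vc ((2 : ℝ) • cv (cr3 (p : U3) a) +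
        mv (Wm μ) (cv (cr3 (p : U3) a))))⟫ • _ = _
    rw [h, zero_smul, sub_zero]
  pos p a ha hne := by
    have hp : (p : U3) 0 ^ 2 + (p : U3) 1 ^ 2 + (p : U3) 2 ^ 2 = 1 :=
      (Pool.Agent.H510R2.HS.norm_eq_one_iff3 _).1 (norm_eq_of_mem_sphere p)
    have ho : ⟪(p : U3), a⟫ = 0 := by
      rw [X2_P, X2_j] at ha
      have h1 : ⟪(p : U3), a⟫ • (p : U3) = 0 := by
        have := sub_eq_self.1 ha
        exact this
      have h2 : (p : U3) ≠ 0 := ne_zero_of_mem_unit_sphere p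
      exact (smul_eq_zero.1 h1).resolve_right h2
    have ha0 : 0 < a 0 ^ 2 + a 1 ^ 2 + a 2 ^ 2 := by
      rw [← Pool.Agent.H510R2.HS.norm3]
      positivity
    rw [inner_U3] at ho
    rw [X2_B, X2_j, W2_apply, inner_U3]
    set u := (p : U3) 1 * a 2 - (p : U3) 2 * a 1 with hu
    set v := (p : U3) 2 * a 0 - (p : U3) 0 * a 2 with hv
    set w := (p : U3) 0 * a 1 - (p : U3) 1 * a 0 with hw
    have hn : u ^ 2 + v ^ 2 + w ^ 2 = a 0 ^ 2 + a 1 ^ 2 + a 2 ^ 2 := by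
      have : u ^ 2 + v ^ 2 + w ^ 2 = ((p : U3) 0 ^ 2 + (p : U3) 1 ^ 2 + (p : U3) 2 ^ 2) *
          (a 0 ^ 2 + a 1 ^ 2 + a 2 ^ 2) -
          ((p : U3) 0 * a 0 + (p : U3) 1 * a 1 + (p : U3) 2 * a 2) ^ 2 := by
        rw [hu, hv, hw]; ring
      rw [this, hp, ho]; ring
    have key : a 0 * ((-4 : ℝ) • cr3 (p : U3) (vc ((2 : ℝ) • cv (cr3 (p : U3) a) +
          mv (Wm μ) (cv (cr3 (p : U3) a))))) 0 +
        a 1 * ((-4 : ℝ) • cr3 (p : U3) (vc ((2 : ℝ) • cv (cr3 (p : U3) a) +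
          mv (Wm μ) (cv (cr3 (p : U3) a))))) 1 +
        a 2 * ((-4 : ℝ) • cr3 (p : U3) (vc ((2 : ℝ) • cv (cr3 (p : U3) a) +
          mv (Wm μ) (cv (cr3 (p : U3) a))))) 2 =
        4 * (3 * (u ^ 2 + v ^ 2 + w ^ 2) + 2 * μ * (v * w)) := by
      rw [hu, hv, hw]
      simp [vc, cv, mv, dt, Wm]
      ring
    rw [key]
    have hm := abs_le.1 hμ
    nlinarith [sq_nonneg (v + w), sq_nonneg (v - w), sq_nonneg u, sq_nonneg v, sq_nonneg w]

/-! ### the main identity -/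

theorem cv_dq_qR (y : U4) (w : V ℝ) :
    cv (dq y (qR (vc w) y)) = (2 : ℝ) • Ad (c4 y) (cx w ![1, 0, 0]) := by
  refine ext3 ?_ ?_ ?_ <;> simp [cv, vc, Ad, qp, qm, qi, qc, c4, cx] <;> ring

theorem cv_qJ_aq (y : U4) (c : U3) :
    cv (qJ y (aq y c)) = (2 : ℝ) • cx ![1, 0, 0] (Ad (qc (c4 y)) (cv c)) := by
  refine ext3 ?_ ?_ ?_ <;> simp [cv, vc, Ad, qp, qm, qi, qc, c4, cx] <;> ring

theorem cv_hq (y : U4) : cv (hq y) = Ad (c4 y) ![1, 0, 0] := by
  refine ext3 ?_ ?_ ?_ <;> simp [cv, vc, Ad, qp, qm, qi, qc, c4, cx] <;> ring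

theorem cv_inj {a b : U3} (h : cv a = cv b) : a = b :=
  ext_U3 (congrFun h 0) (congrFun h 1) (congrFun h 2)

theorem cv_cr3 (a b : U3) : cv (cr3 a b) = cx (cv a) (cv b) := by
  refine ext3 ?_ ?_ ?_ <;> simp [cv, cx]

theorem cv_smul' (c : ℝ) (a : U3) : cv (c • a) = c • cv a := by
  refine ext3 ?_ ?_ ?_ <;> simp [cv]

theorem cx_add_left (a b c : V ℝ) : cx (a + b) c = cx a c + cx b c := by
  refine ext3 ?_ ?_ ?_ <;> simp [cx] <;> ring

theorem cx_smul_left (r : ℝ) (a c : V ℝ) : cx (r • a) c = r • cx a c := by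
  refine ext3 ?_ ?_ ?_ <;> simp [cx] <;> ring

theorem cx_smul_right (r : ℝ) (a c : V ℝ) : cx a (r • c) = r • cx a c := by
  refine ext3 ?_ ?_ ?_ <;> simp [cx] <;> ring

theorem cx_swap (a b : V ℝ) : cx a b = -cx b a := by
  refine ext3 ?_ ?_ ?_ <;> simp [cx] <;> ring

section

variable (D : HopfG.HS.Dat ℝ) (hW : G2.SymM D.W) (hWp : G2.SymM D.Wp)

/-- **the main identity** -/
theorem main_id (h1 : ∀ M : V ℝ, M 0 = 0 → cx (mv D.W M) ![1, 0, 0] = cx M ![1, 0, 0])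
    {y : U4} (hy : ‖y‖ = 1) (c : U3) :
    dq y (V3 D hW hWp y (aq y c)) = W2 D.Wp (hq y) c := by
  have hq1 : qd (c4 y) (c4 y) = 1 := qd_c4 hy
  have hr := isRot_Ad hq1
  apply cv_inj
  rw [V3_eq', cv_dq_qR, W2_apply, cv_smul', cv_cr3, cv_vc, cv_cr3, cv_hq, kk2, cx_add_left,
    cx_add_left, Ad_add, Ad_add]
  set M := cv (qJ y (aq y c)) with hM
  have hM' : M = (2 : ℝ) • cx ![1, 0, 0] (Ad (qc (c4 y)) (cv c)) := cv_qJ_aq y c
  have hM0 : M 0 = 0 := by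
    rw [hM']
    simp [cx]
  have hAM : Ad (c4 y) M = (2 : ℝ) • cx (Ad (c4 y) ![1, 0, 0]) (cv c) := by
    rw [hM', Ad_smul, ← hr.cx, hr.inv]
  rw [h1 M hM0]
  have e1 : Ad (c4 y) (cx M ![1, 0, 0]) =
      (-2 : ℝ) • cx (Ad (c4 y) ![1, 0, 0]) (cx (Ad (c4 y) ![1, 0, 0]) (cv c)) := by
    rw [← hr.cx, hAM, cx_swap, cx_smul_right]
    module
  have e2 : Ad (c4 y) (cx (Ad (qc (c4 y)) (mv D.Wp (Ad (c4 y) M))) ![1, 0, 0]) =
      (-2 : ℝ) • cx (Ad (c4 y) ![1, 0, 0]) (mv D.Wp (cx (Ad (c4 y) ![1, 0, 0]) (cv c))) := by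
    rw [← hr.cx, hr.inv, hAM, HopfG.HS.mv_smul, cx_swap, cx_smul_right]
    module
  rw [e1, e2]
  have e3 : ∀ a b : V ℝ, cx (Ad (c4 y) ![1, 0, 0]) (a + b) =
      cx (Ad (c4 y) ![1, 0, 0]) a + cx (Ad (c4 y) ![1, 0, 0]) b := fun a b => by
    refine ext3 ?_ ?_ ?_ <;> simp [cx] <;> ring
  rw [e3, cx_smul_right]
  module

end

end Pool.Agent.H170.WH
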