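import Pool.Agent.W482.S33.Fin
import Pool.Agent.H510R2.HS.Hopf

/-!
A criterion for Riemannian submersions of immersed manifolds whose metrics are given by ambient
cometrics.
-/

open Bundle Manifold ContDiff ContinuousLinearMap Filter VectorField Metric Module
open scoped Topology RealInnerProductSpace

set_option autoImplicit false
set_option synthInstance.maxHeartbeats 400000
set_option maxHeartbeats 4000000
set_option linter.unusedSectionVars false

noncomputable section

namespace Pool.Agent.H170.WH

open Pool.Agent.H821R2 Pool.Agent.H893R5.HO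
open Pool.Agent.H839R2.RS

section crit

variable {E : Type*} [NormedAddCommGroup E] [NormedSpace ℝ E] [FiniteDimensional ℝ E]
  {H : Type*} [TopologicalSpace H] {I : ModelWithCorners ℝ E H}
  {M : Type*} [TopologicalSpace M] [ChartedSpace H M] [IsManifold I ∞ M]
  {A : Type*} [NormedAddCommGroup A] [NormedSpace ℝ A] [FiniteDimensional ℝ A]
  {E' : Type*} [NormedAddCommGroup E'] [NormedSpace ℝ E'] [FiniteDimensional ℝ E']
  {H' : Type*} [TopologicalSpace H'] {I' : ModelWithCorners ℝ E' H'}
  {B : Type*} [TopologicalSpace B] [ChartedSpace H' B] [IsManifold I' ∞ B]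
  {A' : Type*} [NormedAddCommGroup A'] [NormedSpace ℝ A'] [FiniteDimensional ℝ A']

/-- **criterion**: the cometric of the base is `T W T*` -/
theorem criterion (X : Emb I M A) (X' : Emb I' B A') {W : A → A →L[ℝ] A} {W' : A' → A' →L[ℝ] A'}
    (hC : X.Com W) (hC' : X'.Com W')
    {g : ContMDiffRiemannianMetric I ∞ E (fun x : M => TangentSpace I x)}
    {h : ContMDiffRiemannianMetric I' ∞ E' (fun x : B => TangentSpace I' x)}
    (hg : X.Dual g W) (hh : X'.Dual h W') {f : M → B} (hf : ContMDiff I I' ∞ f)
    (hsurj : Function.Surjective f) (T : M → A → A') (Ts : M → A' → A)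
    (hT : ∀ (p : M) (v : TangentSpace I p), X'.d (f p) (mfderiv I I' f p v) = T p (X.d p v))
    (hTs : ∀ (p : M) (b : A') (a : A), X.B (Ts p b) a = X'.B b (T p a))
    (hW : ∀ (p : M) (b : A'), X'.P (X'.j (f p)) b = b →
      T p (W (X.j p) (Ts p b)) = W' (X'.j (f p)) b) :
    IsRiemannianSubmersion g h f := by
  -- the horizontal lift
  have lift : ∀ (p : M) (w : TangentSpace I' (f p)), ∃ (b : A') (v : TangentSpace I p),
      X.d p v = W (X.j p) (Ts p b) ∧ W' (X'.j (f p)) b = X'.d (f p) w ∧
      IsHorizontal g I' f p v ∧ mfderiv I I' f p v = w := by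
    intro p w
    obtain ⟨b, hb1, hb⟩ := Emb.exists_covec hC' hh (f p) w
    obtain ⟨v, hv⟩ := X.rng p (W (X.j p) (Ts p b))
    have hv3 : X.d p v = W (X.j p) (Ts p b) := hv.trans (hC.tan p _)
    refine ⟨b, v, hv3, hb, ?_, ?_⟩
    · intro u hu
      rw [hg p _ v hv3, hTs, ← hT, hu, map_zero, map_zero]
    · apply X'.d_inj (f p)
      rw [hT, hv3, hW p b hb1, hb]
  -- horizontal vectors in the kernel vanish
  have uniq : ∀ (p : M) (v v' : TangentSpace I p), IsHorizontal g I' f p v →
      IsHorizontal g I' f p v' → mfderiv I I' f p v = mfderiv I I' f p v' → v = v' := by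
    intro p v v' hv hv' he
    have hk : mfderiv I I' f p (v - v') = 0 := by rw [map_sub, he, sub_self]
    have h1 : g.inner p (v - v') (v - v') = 0 := by
      have h2 := hv _ hk
      have h3 := hv' _ hk
      have h4 : g.inner p (v - v') = g.inner p v - g.inner p v' := map_sub (g.inner p) v v'
      rw [h4, ContinuousLinearMap.sub_apply, h2, h3, sub_zero]
    by_contra hne
    exact (g.pos p (v - v') (sub_ne_zero.2 hne)).ne' h1
  refine ⟨hf, hsurj, ?_, ?_⟩
  · intro p v w hv hw
    obtain ⟨b, v', hv1, hv2, hv3, hv4⟩ := lift p (mfderiv I I' f p v)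
    have hvv : v' = v := uniq p v' v hv3 hv hv4
    rw [hvv] at hv1
    rw [hg p _ v hv1, hTs, ← hT]
    exact hh (f p) b _ hv2.symm _
  · intro p w
    obtain ⟨b, v, hv1, hv2, hv3, hv4⟩ := lift p w
    exact ⟨v, hv3, hv4⟩

end crit

end Pool.Agent.H170.WH
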