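import Pool.Agent.H170.WH.Base

/-!
Riemannian submersions of the positively curved metric on `S³ × S³`: conclusion.
-/

open Bundle Manifold ContDiff ContinuousLinearMap Filter VectorField Metric Module
open scoped Topology RealInnerProductSpace

set_option autoImplicit false
set_option synthInstance.maxHeartbeats 400000
set_option maxHeartbeats 4000000
set_option linter.unusedSectionVars false
set_option linter.unusedSimpArgs false

noncomputable section

namespace Pool.Agent.H170.WH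

open Pool.Agent.H821R2 Pool.Agent.H893R5.HO
open HopfPP HopfG HopfG.Eqv HopfG.HS
open Pool.Agent.H878R5 (PositivelyCurved)
open Pool.Agent.H839R2.RS
open Pool.Agent.W482.S33 (S3 j3 smooth_j3 P3 P3_apply orth3 X3 X3_B X3_j X3_P XX3 XX3_B XX3_j XX3_P
  XX3_d_fst WW WW_apply qJ_zero Ad_zero cx_zero_left)

theorem XX3_d_snd (p : S33) (v : TangentSpace I33 p) :
    (XX3.d p v).2 = X3.d p.2 (v.2 : EuclideanSpace ℝ (Fin 3)) :=
  congrArg Prod.snd (d_sj 3 3 p v)

/-- `(x, y) ↦ y e₁ ȳ`, from `S³ × S³` to `S²` -/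
def hopSnd (p : S3 × S3) : S2 := hop p.2

theorem smooth_hopSnd : ContMDiff ((𝓡 3).prod (𝓡 3)) (𝓡 2) ∞ hopSnd :=
  smooth_hop.comp contMDiff_snd

theorem surj_hopSnd : Function.Surjective hopSnd := fun b => by
  obtain ⟨y, hy⟩ := surj_hop b
  exact ⟨(x0, y), hy⟩

theorem d_snd (p : S33) (v : TangentSpace I33 p) :
    mfderiv I33 (𝓡 3) (Prod.snd : S3 × S3 → S3) p v = v.2 := by
  rw [mfderiv_snd]
  rfl

theorem d_hopSnd (p : S33) (v : TangentSpace I33 p) :
    X2.d (hopSnd p) (mfderiv I33 (𝓡 2) hopSnd p v) = dq p.2 (XX3.d p v).2 := by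
  have h1 : MDifferentiableAt (𝓡 3) (𝓡 2) hop p.2 := smooth_hop.mdifferentiableAt (by simp)
  have h2 : MDifferentiableAt I33 (𝓡 3) (Prod.snd : S3 × S3 → S3) p := mdifferentiableAt_snd
  have h3 := mfderiv_comp p (g := hop) (f := (Prod.snd : S3 × S3 → S3)) (I := I33) (I' := 𝓡 3)
    (I'' := 𝓡 2) h1 h2
  have h4 : mfderiv I33 (𝓡 2) hopSnd p v = mfderiv (𝓡 3) (𝓡 2) hop p.2
      (mfderiv I33 (𝓡 3) (Prod.snd : S3 × S3 → S3) p v) := congrArg (fun T => T v) h3
  rw [h4, d_snd, XX3_d_snd]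
  exact d_hop p.2 v.2

section

variable {D : HopfG.HS.Dat ℝ} {hW : G2.SymM D.W} {hWp : G2.SymM D.Wp}

/-- the second projection is a Riemannian submersion -/
theorem sub_snd (hC : XX3.Com (WW D hW hWp))
    {g : ContMDiffRiemannianMetric I33 ∞ (EuclideanSpace ℝ (Fin 3) × EuclideanSpace ℝ (Fin 3))
      (fun x : S33 => TangentSpace I33 x)} (hg : XX3.Dual g (WW D hW hWp))
    {h : ContMDiffRiemannianMetric (𝓡 3) ∞ (EuclideanSpace ℝ (Fin 3))
      (fun x : S3 => TangentSpace (𝓡 3) x)} (hh : X3.Dual h (V3 D hW hWp)) :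
    IsRiemannianSubmersion g h (Prod.snd : S3 × S3 → S3) := by
  refine criterion XX3 X3 hC (com3' D hW hWp hC) hg hh contMDiff_snd (fun y => ⟨(x0, y), rfl⟩)
    (fun _ a => a.2) (fun _ b => (0, b)) ?_ ?_ ?_
  · intro p v
    rw [d_snd, XX3_d_snd]
  · intro p b a
    rw [XX3_B, X3_B]
    simp
  · intro p b _
    exact V3_eq D hW hWp (norm_eq_of_mem_sphere p.1) _ _

/-- the Hopf map of the second factor is a Riemannian submersion -/
theorem sub_hop (hC : XX3.Com (WW D hW hWp))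
    (h1 : ∀ M : V ℝ, M 0 = 0 → cx (mv D.W M) ![1, 0, 0] = cx M ![1, 0, 0])
    (hB : X2.Com (W2 D.Wp))
    {h : ContMDiffRiemannianMetric (𝓡 3) ∞ (EuclideanSpace ℝ (Fin 3))
      (fun x : S3 => TangentSpace (𝓡 3) x)} (hh : X3.Dual h (V3 D hW hWp))
    {k : ContMDiffRiemannianMetric (𝓡 2) ∞ (EuclideanSpace ℝ (Fin 2))
      (fun x : S2 => TangentSpace (𝓡 2) x)} (hk : X2.Dual k (W2 D.Wp)) :
    IsRiemannianSubmersion h k hop := by
  refine criterion X3 X2 (com3' D hW hWp hC) hB hh hk smooth_hop surj_hop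
    (fun y a => dq y a) (fun y b => aq y b) ?_ ?_ ?_
  · intro p v
    exact d_hop p v
  · intro p b a
    rw [X3_B, X2_B]
    exact aq_adj _ _ _
  · intro p b _
    exact main_id D hW hWp h1 (norm_eq_of_mem_sphere p) b

/-- the composition is a Riemannian submersion -/
theorem sub_hopSnd (hC : XX3.Com (WW D hW hWp))
    (h1 : ∀ M : V ℝ, M 0 = 0 → cx (mv D.W M) ![1, 0, 0] = cx M ![1, 0, 0])
    (hB : X2.Com (W2 D.Wp))
    {g : ContMDiffRiemannianMetric I33 ∞ (EuclideanSpace ℝ (Fin 3) × EuclideanSpace ℝ (Fin 3))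
      (fun x : S33 => TangentSpace I33 x)} (hg : XX3.Dual g (WW D hW hWp))
    {k : ContMDiffRiemannianMetric (𝓡 2) ∞ (EuclideanSpace ℝ (Fin 2))
      (fun x : S2 => TangentSpace (𝓡 2) x)} (hk : X2.Dual k (W2 D.Wp)) :
    IsRiemannianSubmersion g k hopSnd := by
  refine criterion XX3 X2 hC hB hg hk smooth_hopSnd surj_hopSnd
    (fun p a => dq p.2 a.2) (fun p b => (0, aq p.2 b)) ?_ ?_ ?_
  · intro p v
    exact d_hopSnd p v
  · intro p b a
    rw [XX3_B, X2_B]
    simp only [inner_zero_left, zero_add]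
    exact aq_adj _ _ _
  · intro p b _
    have e : (WW D hW hWp (XX3.j p) (0, aq p.2 b)).2 = V3 D hW hWp (p.2 : U4) (aq p.2 b) :=
      V3_eq D hW hWp (norm_eq_of_mem_sphere p.1) _ _
    change dq p.2 (WW D hW hWp (XX3.j p) (0, aq p.2 b)).2 = _
    rw [e]
    exact main_id D hW hWp h1 (norm_eq_of_mem_sphere p.2) b

end

/-- the tower of Riemannian submersions `S³ × S³ → S³ → S²` -/
theorem tower : ∃ (g : ContMDiffRiemannianMetric ((𝓡 3).prod (𝓡 3)) ∞
      (EuclideanSpace ℝ (Fin 3) × EuclideanSpace ℝ (Fin 3))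
      (fun x : S3 × S3 => TangentSpace ((𝓡 3).prod (𝓡 3)) x))
    (h₁ h₂ : ContMDiffRiemannianMetric (𝓡 3) ∞ (EuclideanSpace ℝ (Fin 3))
      (fun x : S3 => TangentSpace (𝓡 3) x))
    (h : ContMDiffRiemannianMetric (𝓡 2) ∞ (EuclideanSpace ℝ (Fin 2))
      (fun x : S2 => TangentSpace (𝓡 2) x)),
    PositivelyCurved g ∧
    IsRiemannianSubmersion g h₁ (Prod.fst : S3 × S3 → S3) ∧
    IsRiemannianSubmersion g h₂ (Prod.snd : S3 × S3 → S3) ∧
    IsRiemannianSubmersion h₂ h hop ∧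
    IsRiemannianSubmersion g h hopSnd := by
  obtain ⟨b, μ, e, l, hb, hμ, he, hl, hG⟩ := H515HS.fin0 (1 / 100) (by norm_num)
  obtain ⟨hC, g, hg, hd⟩ := Pool.Agent.W482.S33.exists_dual (symM_Dfr_W b μ e l)
    (symM_Dfr_Wp b μ e l)
    (fun x g hx hg c hc => C124.pos_K0 hb.le hμ.le he.le hl.le x g hx hg c hc) hG
  have h1 : ∀ M : V ℝ, M 0 = 0 →
      cx (mv (Dfr b μ e l).W M) ![1, 0, 0] = cx M ![1, 0, 0] := by
    intro M hM
    refine ext3 ?_ ?_ ?_ <;> simp [cx, mv, dt, Dfr, hM]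
  have hB : X2.Com (W2 (Dfr b μ e l).Wp) := com2' hμ.le
  obtain ⟨h₁, hh₁⟩ := Pool.Agent.W482.S33.submersion _ _ _ hC hd
  obtain ⟨h₂, hh₂⟩ := Emb.exists_metric (com3' _ _ _ hC)
  obtain ⟨h, hh⟩ := Emb.exists_metric hB
  exact ⟨g, h₁, h₂, h, hg, hh₁, sub_snd hC hd hh₂, sub_hop hC h1 hB hh₂ hh,
    sub_hopSnd hC h1 hB hd hh⟩

theorem closed2 : IsClosedMfd (𝓡 2) 2 S2 := by
  have h : ConnectedSpace S2 := by
    apply Subtype.connectedSpace
    apply isConnected_sphere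
    · rw [← Module.finrank_eq_rank]
      simp
    · norm_num
  exact ⟨inferInstance, by simp, inferInstance, inferInstance, inferInstance, inferInstance,
    inferInstance, h⟩

theorem closed33 : IsClosedMfd ((𝓡 3).prod (𝓡 3)) (4 + 2) (S3 × S3) :=
  Pool.Agent.W482.S33.closed33

theorem positive : PositiveSubmersion 4 2 ((𝓡 3).prod (𝓡 3)) (𝓡 2) hopSnd := by
  obtain ⟨g, h₁, h₂, h, hg, -, -, -, hh⟩ := tower
  exact ⟨closed33, closed2, g, h, hg, hh⟩

/-- The assertion that every Riemannian submersion of a closed connected positively curved manifold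
onto a closed connected manifold of dimension `b ≥ 1`, with fibres of dimension `k ≥ 1`, has
`k < c b`. For `c = 1` this is the assertion of Q1. -/
def FiberBound (c : ℝ) : Prop :=
  ∀ (k b : ℕ) (E : Type) [NormedAddCommGroup E] [NormedSpace ℝ E]
    (H : Type) [TopologicalSpace H] (I : ModelWithCorners ℝ E H)
    (M : Type) [TopologicalSpace M] [ChartedSpace H M] [IsManifold I ∞ M]
    (E' : Type) [NormedAddCommGroup E'] [NormedSpace ℝ E']
    (H' : Type) [TopologicalSpace H'] (I' : ModelWithCorners ℝ E' H')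
    (B : Type) [TopologicalSpace B] [ChartedSpace H' B] [IsManifold I' ∞ B] (f : M → B),
    1 ≤ k → 1 ≤ b → PositiveSubmersion k b I I' f → (k : ℝ) < c * (b : ℝ)

theorem not_bound {c : ℝ} (hc : c ≤ 2) : ¬ FiberBound c := by
  intro h
  have := h 4 2 _ _ _ _ _ _ _ _ _ (by norm_num) (by norm_num) positive
  norm_num at this
  linarith

end Pool.Agent.H170.WH
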