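import Pool.Agent.H170.WH.Crit

/-!
The Hopf map `y ↦ y e₁ ȳ` and the cometric of the second factor of `S³ × S³`.
-/

open Bundle Manifold ContDiff ContinuousLinearMap Filter VectorField Metric Module
open scoped Topology RealInnerProductSpace

set_option autoImplicit false
set_option synthInstance.maxHeartbeats 400000
set_option maxHeartbeats 4000000
set_option linter.unusedSectionVars false
set_option linter.unusedSimpArgs false

noncomputable section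

namespace Pool.Agent.H170.WH

open Pool.Agent.H821R2 Pool.Agent.H893R5.HO
open HopfPP HopfG HopfG.Eqv HopfG.HS
open Pool.Agent.H839R2.RS
open Pool.Agent.W482.S33 (S3 j3 smooth_j3 P3 P3_apply orth3 X3 X3_B X3_j X3_P XX3 XX3_B XX3_j XX3_P
  XX3_d_fst WW WW_apply qJ_zero Ad_zero cx_zero_left)

/-! ### the two-sphere -/

/-- `S²` -/
abbrev S2 : Type := sphere (0 : U3) 1

/-- the inclusion `S² → ℝ³` -/
def j2 (p : S2) : U3 := (p : U3)

theorem smooth_j2 : ContMDiff (𝓡 2) 𝓘(ℝ, U3) ∞ j2 :=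
  contMDiff_coe_sphere (m := ∞) (E := U3) (n := 2)

/-- the projection `id - z ⊗ z` -/
def P2 (z : U3) : U3 →L[ℝ] U3 := ContinuousLinearMap.id ℝ U3 - (innerSL ℝ z).smulRight z

theorem P2_apply (z a : U3) : P2 z a = a - ⟪z, a⟫ • z := by simp [P2]

theorem orth2 (p : S2) (v : TangentSpace (𝓡 2) p) : ⟪(p : U3), mvfderiv (𝓡 2) j2 p v⟫ = 0 := by
  have h : mvfderiv (𝓡 2) j2 p v ∈ (ℝ ∙ (p : U3))ᗮ := by
    rw [← range_mvfderiv_subtypeVal (E := U3) (n := 2) p]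
    exact ⟨_, rfl⟩
  exact Submodule.mem_orthogonal_singleton_iff_inner_right.1 h

/-- `S²` as an immersed manifold -/
def X2 : Emb (𝓡 2) S2 U3 where
  B := innerSL ℝ
  Bsymm a b := by
    rw [innerSL_apply_apply, innerSL_apply_apply, real_inner_comm]
  Bpos a ha := by
    rw [innerSL_apply_apply]
    exact real_inner_self_pos.2 ha
  j := j2
  hj := smooth_j2
  inj p v h := injective_mvfderiv_subtypeVal_sphere (E := U3) (n := 2) p (h.trans (map_zero _).symm)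
  P := P2
  hP := contDiff_const.sub ((innerSL ℝ (E := U3)).contDiff.smulRight contDiff_id)
  Psymm p a b := by
    rw [innerSL_apply_apply, innerSL_apply_apply, P2_apply, P2_apply]
    simp only [inner_sub_left, inner_sub_right, real_inner_smul_left, real_inner_smul_right]
    rw [real_inner_comm (j2 p) a]
    ring
  Pd p v := by
    rw [P2_apply]
    have h := orth2 p v
    change mvfderiv (𝓡 2) j2 p v - ⟪(p : U3), mvfderiv (𝓡 2) j2 p v⟫ • (p : U3) = _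
    rw [h, zero_smul, sub_zero]
  rng p a := by
    have h1 : a - ⟪(p : U3), a⟫ • (p : U3) ∈ (ℝ ∙ (p : U3))ᗮ :=
      Submodule.mem_orthogonal_singleton_iff_inner_right.2 (by
        rw [inner_sub_right, real_inner_smul_right, inner_self_sph]
        ring)
    rw [← range_mvfderiv_subtypeVal (E := U3) (n := 2) p] at h1
    obtain ⟨v, hv⟩ := h1
    refine ⟨v, ?_⟩
    rw [P2_apply]
    exact hv

theorem X2_B (a b : U3) : X2.B a b = ⟪a, b⟫ := rfl

theorem X2_j (p : S2) : X2.j p = (p : U3) := rfl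

theorem X2_P (z a : U3) : X2.P z a = a - ⟪z, a⟫ • z := P2_apply z a

/-! ### the Hopf map -/

/-- `y ↦ y e₁ ȳ` on `ℝ⁴` -/
def hq (y : U4) : U3 :=
  !₂[y 0 ^ 2 + y 1 ^ 2 - y 2 ^ 2 - y 3 ^ 2, 2 * (y 1 * y 2 + y 0 * y 3),
    2 * (y 1 * y 3 - y 0 * y 2)]

@[simp] theorem hq0 (y : U4) : (hq y) 0 = y 0 ^ 2 + y 1 ^ 2 - y 2 ^ 2 - y 3 ^ 2 := rfl
@[simp] theorem hq1 (y : U4) : (hq y) 1 = 2 * (y 1 * y 2 + y 0 * y 3) := rfl
@[simp] theorem hq2 (y : U4) : (hq y) 2 = 2 * (y 1 * y 3 - y 0 * y 2) := rfl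

/-- its differential -/
def dq (y b : U4) : U3 :=
  !₂[2 * (y 0 * b 0 + y 1 * b 1 - y 2 * b 2 - y 3 * b 3),
    2 * (y 1 * b 2 + b 1 * y 2 + y 0 * b 3 + b 0 * y 3),
    2 * (y 1 * b 3 + b 1 * y 3 - y 0 * b 2 - b 0 * y 2)]

@[simp] theorem dq0 (y b : U4) :
    (dq y b) 0 = 2 * (y 0 * b 0 + y 1 * b 1 - y 2 * b 2 - y 3 * b 3) := rfl
@[simp] theorem dq1 (y b : U4) :
    (dq y b) 1 = 2 * (y 1 * b 2 + b 1 * y 2 + y 0 * b 3 + b 0 * y 3) := rfl
@[simp] theorem dq2 (y b : U4) :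
    (dq y b) 2 = 2 * (y 1 * b 3 + b 1 * y 3 - y 0 * b 2 - b 0 * y 2) := rfl

/-- the adjoint of the differential -/
def aq (y : U4) (c : U3) : U4 :=
  !₂[2 * (y 0 * c 0 + y 3 * c 1 - y 2 * c 2), 2 * (y 1 * c 0 + y 2 * c 1 + y 3 * c 2),
    2 * (-(y 2 * c 0) + y 1 * c 1 - y 0 * c 2), 2 * (-(y 3 * c 0) + y 0 * c 1 + y 1 * c 2)]

@[simp] theorem aq0 (y : U4) (c : U3) :
    (aq y c) 0 = 2 * (y 0 * c 0 + y 3 * c 1 - y 2 * c 2) := rfl
@[simp] theorem aq1 (y : U4) (c : U3) :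
    (aq y c) 1 = 2 * (y 1 * c 0 + y 2 * c 1 + y 3 * c 2) := rfl
@[simp] theorem aq2 (y : U4) (c : U3) :
    (aq y c) 2 = 2 * (-(y 2 * c 0) + y 1 * c 1 - y 0 * c 2) := rfl
@[simp] theorem aq3 (y : U4) (c : U3) :
    (aq y c) 3 = 2 * (-(y 3 * c 0) + y 0 * c 1 + y 1 * c 2) := rfl

theorem aq_adj (y : U4) (c : U3) (b : U4) : ⟪aq y c, b⟫ = ⟪c, dq y b⟫ := by
  rw [inner_U4, inner_U3]
  simp
  ring

/-- the differential as a bilinear map -/
def DQ : U4 →L[ℝ] U4 →L[ℝ] U3 :=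
  bilin (LinearMap.mk₂ ℝ dq
    (fun z z' p => by
      refine ext_U3 ?_ ?_ ?_ <;> simp <;> ring)
    (fun c z p => by
      refine ext_U3 ?_ ?_ ?_ <;> simp <;> ring)
    (fun z p p' => by
      refine ext_U3 ?_ ?_ ?_ <;> simp <;> ring)
    (fun c z p => by
      refine ext_U3 ?_ ?_ ?_ <;> simp <;> ring))

theorem DQ_apply (y b : U4) : DQ y b = dq y b := rfl

theorem dq_symm (y b : U4) : dq y b = dq b y := by
  refine ext_U3 ?_ ?_ ?_ <;> simp <;> ring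

theorem hq_eq (y : U4) : hq y = (1 / 2 : ℝ) • DQ y y := by
  rw [DQ_apply]
  refine ext_U3 ?_ ?_ ?_ <;> simp <;> ring

theorem hasFDerivAt_hq (y : U4) : HasFDerivAt hq (DQ y) y := by
  have h : hq = fun y => (1 / 2 : ℝ) • DQ y y := funext hq_eq
  rw [h]
  have h1 : HasFDerivAt (fun y => DQ y y) _ y := (DQ.hasFDerivAt (x := y)).clm_apply (hasFDerivAt_id y)
  refine (h1.const_smul (1 / 2 : ℝ)).congr_fderiv ?_
  ext b : 1
  simp only [_root_.smul_apply, _root_.add_apply,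
    ContinuousLinearMap.comp_apply, ContinuousLinearMap.flip_apply, ContinuousLinearMap.id_apply,
    id_eq, DQ_apply]
  rw [dq_symm b y]
  module

theorem contDiff_hq : ContDiff ℝ ∞ hq := by
  have h : hq = fun y => (1 / 2 : ℝ) • DQ y y := funext hq_eq
  rw [h]
  exact (DQ.contDiff.clm_apply contDiff_id).const_smul (1 / 2 : ℝ)

theorem norm_hq {y : U4} (h : ‖y‖ = 1) : ‖hq y‖ = 1 := by
  rw [Pool.Agent.H510R2.HS.norm_eq_one_iff3]
  have h1 := Pool.Agent.H510R2.HS.normSq4 h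
  simp only [hq0, hq1, hq2]
  have : (y 0 ^ 2 + y 1 ^ 2 - y 2 ^ 2 - y 3 ^ 2) ^ 2 + (2 * (y 1 * y 2 + y 0 * y 3)) ^ 2 +
      (2 * (y 1 * y 3 - y 0 * y 2)) ^ 2 =
      (y 0 ^ 2 + y 1 ^ 2 + (y 2 ^ 2 + y 3 ^ 2)) ^ 2 := by ring
  rw [this, h1]
  norm_num

/-- the Hopf map `S³ → S²`, `y ↦ y e₁ ȳ` -/
def hop (y : S3) : S2 := ⟨hq y, by
  rw [mem_sphere_zero_iff_norm]; exact norm_hq (norm_eq_of_mem_sphere y)⟩

theorem coe_hop (y : S3) : (hop y : U3) = hq y := rfl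

theorem smooth_hop : ContMDiff (𝓡 3) (𝓡 2) ∞ hop := fun _ =>
  Pool.Agent.H510R2.HS.contMDiffAt_sphere
    ((contDiff_hq.contMDiff.comp (contMDiff_coe_sphere (n := 3) (E := U4))).contMDiffAt)

theorem surj_hop : Function.Surjective hop := by
  intro b
  have hb : ‖(b : U3)‖ = 1 := norm_eq_of_mem_sphere b
  rw [Pool.Agent.H510R2.HS.norm_eq_one_iff3] at hb
  let c : Pool.Agent.H510R2.HS.S2 := ⟨!₂[(b : U3) 2, (b : U3) 1, (b : U3) 0], by
    rw [mem_sphere_zero_iff_norm, Pool.Agent.H510R2.HS.norm_eq_one_iff3]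
    simp
    linarith⟩
  obtain ⟨x, hx⟩ := Pool.Agent.H510R2.HS.hopfPB.surj c
  have hx' : Pool.Agent.H510R2.HS.hV (x : U4) = !₂[(b : U3) 2, (b : U3) 1, (b : U3) 0] :=
    congrArg Subtype.val hx
  have h0 := congrArg (fun v : U3 => v 0) hx'
  have h1 := congrArg (fun v : U3 => v 1) hx'
  have h2 := congrArg (fun v : U3 => v 2) hx'
  have hn := Pool.Agent.H510R2.HS.normSq4 (norm_eq_of_mem_sphere x)
  simp at h0 h1 h2
  refine ⟨⟨!₂[(x : U4) 0, -(x : U4) 1, -(x : U4) 2, -(x : U4) 3], ?_⟩, ?_⟩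
  · rw [mem_sphere_zero_iff_norm, Pool.Agent.H510R2.HS.norm_eq_one_iff4, Complex.normSq_apply,
      Complex.normSq_apply]
    simp
    linarith
  · apply Subtype.ext
    rw [coe_hop]
    refine ext_U3 ?_ ?_ ?_
    · simp
      linarith
    · simp
      linarith
    · simp
      linarith

/-- the differential of a map to `S²` which extends to the ambient space -/
theorem d_hop (y : S3) (v : TangentSpace (𝓡 3) y) :
    X2.d (hop y) (mfderiv (𝓡 3) (𝓡 2) hop y v) = dq y (X3.d y v) := by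
  have h1 : MDifferentiableAt (𝓡 3) (𝓡 2) hop y := smooth_hop.mdifferentiableAt (by simp)
  have h2 : MDifferentiableAt (𝓡 2) 𝓘(ℝ, U3) j2 (hop y) := smooth_j2.mdifferentiableAt (by simp)
  have h3 := mfderiv_comp y (g := j2) (f := hop) (I := 𝓡 3) (I' := 𝓡 2) (I'' := 𝓘(ℝ, U3)) h2 h1
  have h4 := X3.d_comp (G := hq) y (contDiff_hq.differentiable (by simp) _) v
  rw [(hasFDerivAt_hq _).fderiv] at h4
  refine Eq.trans ?_ h4
  exact (congrArg (fun T => T v) h3).symm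

end Pool.Agent.H170.WH
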